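import Pool.Agent.W682.BQ.Stm
import Pool.Agent.W581.IW.Fk

/-! Project BQ: the kernel representation of `fI`. -/

set_option autoImplicit false

namespace Pool.Agent.W991.BQ.Fkb

open Pool.Agent.W488.IW Pool.Agent.W488.IX Pool.Agent.W682.BQ MeasureTheory Set Filter Topology
open Pool.Agent.W581.IW.Fk (double)

theorem main : S_FKB := by
  intro κ hκ x y hx hy
  obtain ⟨L, hL⟩ := hκ.lip
  have hc : Continuous κ := hL.continuous
  have hk : Continuous fun s => κ s / s := by
    rw [continuous_iff_continuousAt]
    intro s
    rcases eq_or_ne s 0 with rfl | hs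
    · have : (fun s : ℝ => κ s / s) =ᶠ[𝓝 0] fun _ => 0 := by
        filter_upwards [Iio_mem_nhds (show (0 : ℝ) < 1 / 2 by norm_num)] with s hs
        rw [hκ.low s (le_of_lt hs), zero_div]
      exact (continuousAt_const.congr this.symm)
    · exact hc.continuousAt.div continuousAt_id hs
  have hom : ∀ t, om κ t = ∫ s in (1 / 2 : ℝ)..2, κ s * max (t - s) 0 := fun t =>
    double κ hc hκ.low hκ.high t
  have hhh : ∀ t, hh κ t = ∫ s in (1 / 2 : ℝ)..2, κ s / s * max (t - s) 0 := fun t =>
    double (fun s => κ s / s) hk (fun t ht => by simp [hκ.low t ht])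
      (fun t ht => by simp [hκ.high t ht]) t
  unfold fI
  rw [hom, hhh]
  have c1 : Continuous fun s => κ s / s * max (x + y - s) 0 := by fun_prop
  have c2 : Continuous fun s => κ s * max (x + y - s) 0 := by fun_prop
  have hmain : ∫ s in (1 / 2 : ℝ)..2, κ s * Kt s x y
      = ∫ s in (1 / 2 : ℝ)..2, (((x - y) * (κ s / s * max (x + y - s) 0)
          + κ s * max (x + y - s) 0) / 2) := by
    refine intervalIntegral.integral_congr fun s hs => ?_
    rw [uIcc_of_le (by norm_num)] at hs
    have hs0 : s ≠ 0 := by
      have := hs.1
      intro h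
      rw [h] at this
      norm_num at this
    simp only [Kt]
    rcases le_total 0 (x + y - s) with h | h
    · rw [max_eq_left h]
      field_simp
      ring
    · rw [max_eq_right h]
      ring
  rw [hmain, intervalIntegral.integral_div,
    intervalIntegral.integral_add, intervalIntegral.integral_const_mul]
  · exact (c1.const_smul (x - y)).intervalIntegrable _ _
  · exact c2.intervalIntegrable _ _

end Pool.Agent.W991.BQ.Fkb
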