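import Pool.Agent.W682.BQ.Stm
import Pool.Agent.W769.IW.Qk

/-! Project BQ: the kernel inequality. -/

set_option autoImplicit false

namespace Pool.Agent.W991.BQ.Qkb

open Pool.Agent.W488.IW Pool.Agent.W488.IX Pool.Agent.W682.BQ MeasureTheory Set Filter Topology
open Pool.Agent.W769.IW.Qk (gd_cont gd_scale div_cont prim_cont)
open Pool.Agent.W360.BQ (QCF)

/-- the Lipschitz constant in `s` -/
noncomputable def Cc (x y : ℝ) : ℝ := 2 * (2 * x + y) + 4 * (x * (x + y) + (x + y) ^ 2)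

lemma Cc_nonneg {x y : ℝ} (hx : 0 ≤ x) (hy : 0 ≤ y) : 0 ≤ Cc x y := by unfold Cc; positivity

lemma Kt_lip {s x y : ℝ} (hs : 1 / 2 ≤ s) (hx : 0 ≤ x) (hy : 0 ≤ y) :
    |Kt s x y - Kt 1 x y| ≤ Cc x y * |s - 1| := by
  unfold Kt Cc
  set A := max (x + y - s) 0 with hA
  set B := max (x + y - 1) 0 with hB
  have hAB : |A - B| ≤ |s - 1| := by
    have := abs_max_sub_max_le_abs (x + y - s) (x + y - 1) 0
    rw [← hA, ← hB] at this
    refine this.trans (le_of_eq ?_)
    rw [show x + y - s - (x + y - 1) = -(s - 1) by ring, abs_neg]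
  have hs0 : 0 < s := by linarith
  have A0 : 0 ≤ A := le_max_right _ _
  have B0 : 0 ≤ B := le_max_right _ _
  have A1 : A ≤ x + y := by rw [hA]; apply max_le <;> linarith
  have B1 : B ≤ x + y := by rw [hB]; apply max_le <;> linarith
  -- algebra
  have key : (x * A - A ^ 2 / 2) / s - ((x * B - B ^ 2 / 2) / 1)
      = (A - B) * (x - (A + B) / 2) / s + (x * B - B ^ 2 / 2) * (1 - s) / s := by
    field_simp
    ring
  rw [key]
  have h1 : |(A - B) * (x - (A + B) / 2) / s| ≤ 2 * (2 * x + y) * |s - 1| := by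
    rw [abs_div, abs_mul, abs_of_pos hs0, div_le_iff₀ hs0]
    have h2 : |x - (A + B) / 2| ≤ 2 * x + y := by
      rw [abs_le]; constructor <;> linarith
    calc |A - B| * |x - (A + B) / 2| ≤ |s - 1| * (2 * x + y) := by gcongr
      _ ≤ 2 * (2 * x + y) * |s - 1| * s := by
          have : 0 ≤ |s - 1| * (2 * x + y) := by positivity
          nlinarith
  have h2 : |(x * B - B ^ 2 / 2) * (1 - s) / s| ≤ 4 * (x * (x + y) + (x + y) ^ 2) * |s - 1| := by
    rw [abs_div, abs_mul, abs_of_pos hs0, div_le_iff₀ hs0, abs_sub_comm 1 s]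
    have h3 : |x * B - B ^ 2 / 2| ≤ x * (x + y) + (x + y) ^ 2 := by
      rw [abs_le]; constructor <;> nlinarith [mul_nonneg hx B0, mul_le_mul_of_nonneg_left B1 hx, mul_le_mul B1 B1 B0 (by linarith)]
    calc |x * B - B ^ 2 / 2| * |s - 1| ≤ (x * (x + y) + (x + y) ^ 2) * |s - 1| := by gcongr
      _ ≤ 4 * (x * (x + y) + (x + y) ^ 2) * |s - 1| * s := by
          have : 0 ≤ (x * (x + y) + (x + y) ^ 2) * |s - 1| := by positivity
          nlinarith
  calc |(A - B) * (x - (A + B) / 2) / s + (x * B - B ^ 2 / 2) * (1 - s) / s|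
      ≤ |(A - B) * (x - (A + B) / 2) / s| + |(x * B - B ^ 2 / 2) * (1 - s) / s| := abs_add_le _ _
    _ ≤ 2 * (2 * x + y) * |s - 1| + 4 * (x * (x + y) + (x + y) ^ 2) * |s - 1| := by
        gcongr
    _ = _ := by ring

lemma Kt_cont_s (x y : ℝ) : ContinuousOn (fun s => Kt s x y) (Icc (1 / 2) 2) := by
  unfold Kt
  apply ContinuousOn.div
  · fun_prop
  · fun_prop
  · intro s hs; linarith [hs.1]

lemma tri_int {n : ℕ} (hb : Bump (tri n)) (h1 : om1 (tri n) 2 = 1) :
    ∫ s in (1 / 2 : ℝ)..2, tri n s = 1 := by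
  obtain ⟨L, hL⟩ := hb.lip
  have hi := intervalIntegral.integral_add_adjacent_intervals (μ := volume)
    (hL.continuous.intervalIntegrable (0 : ℝ) (1 / 2))
    (hL.continuous.intervalIntegrable (1 / 2 : ℝ) 2)
  have e1 : ∫ s in (0 : ℝ)..(1 / 2 : ℝ), tri n s = 0 := by
    rw [intervalIntegral.integral_congr (g := fun _ => (0 : ℝ))]
    · simp
    · intro s hs
      rw [uIcc_of_le (by norm_num)] at hs
      simp only
      rw [hb.low s hs.2]
  unfold om1 at h1
  rw [e1, zero_add] at hi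
  rw [hi, h1]

/-- pointwise comparison -/
lemma fI_near (hF : S_FKB) (hT : S_TRI) (n : ℕ) (hn : 2 ≤ n) {x y : ℝ} (hx : 0 ≤ x)
    (hy : 0 ≤ y) : |fI (tri n) x y - Kt 1 x y| ≤ Cc x y * (1 / n) := by
  obtain ⟨hbl, h1, h0⟩ := hT n hn
  have hb := hbl.bump
  obtain ⟨L, hL⟩ := hb.lip
  have hc : Continuous (tri n) := hL.continuous
  have hC : 0 ≤ Cc x y := Cc_nonneg hx hy
  have hint := tri_int hb h1
  have i1 : IntervalIntegrable (fun s => tri n s * Kt s x y) volume (1 / 2) 2 := by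
    apply ContinuousOn.intervalIntegrable
    rw [uIcc_of_le (by norm_num)]
    exact hc.continuousOn.mul (Kt_cont_s x y)
  have i2 : IntervalIntegrable (fun s => tri n s * Kt 1 x y) volume (1 / 2) 2 :=
    (hc.mul continuous_const).intervalIntegrable _ _
  have e : fI (tri n) x y - Kt 1 x y
      = ∫ s in (1 / 2 : ℝ)..2, (tri n s * Kt s x y - tri n s * Kt 1 x y) := by
    rw [intervalIntegral.integral_sub i1 i2, intervalIntegral.integral_mul_const, hint, one_mul,
      hF _ hb x y hx hy]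
  rw [e]
  have hb1 : ∀ s ∈ Icc (1 / 2 : ℝ) 2, ‖tri n s * Kt s x y - tri n s * Kt 1 x y‖ ≤
      tri n s * (Cc x y * (1 / n)) := by
    intro s hs
    by_cases h : 1 / (n : ℝ) ≤ |s - 1|
    · rw [h0 s h]; simp
    · push Not at h
      rw [← mul_sub, norm_mul, Real.norm_of_nonneg (hb.nonneg s), Real.norm_eq_abs]
      apply mul_le_mul_of_nonneg_left _ (hb.nonneg s)
      have h2 : Cc x y * |s - 1| ≤ Cc x y * (1 / n) := by gcongr
      exact (Kt_lip hs.1 hx hy).trans h2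
  rw [← Real.norm_eq_abs]
  calc ‖∫ s in (1 / 2 : ℝ)..2, (tri n s * Kt s x y - tri n s * Kt 1 x y)‖
      ≤ ∫ s in (1 / 2 : ℝ)..2, ‖tri n s * Kt s x y - tri n s * Kt 1 x y‖ :=
        intervalIntegral.norm_integral_le_integral_norm (by norm_num)
    _ ≤ ∫ s in (1 / 2 : ℝ)..2, tri n s * (Cc x y * (1 / n)) := by
        apply intervalIntegral.integral_mono_on (by norm_num) (i1.sub i2).norm
        · exact (hc.mul continuous_const).intervalIntegrable _ _
        · exact hb1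
    _ = Cc x y * (1 / n) := by
        rw [intervalIntegral.integral_mul_const, hint, one_mul]

lemma fI_cont {κ : ℝ → ℝ} (hκ : Bump κ) : Continuous (fun p : ℝ × ℝ => fI κ p.1 p.2) := by
  obtain ⟨L, hL⟩ := hκ.lip
  have h1 : Continuous (om κ) := prim_cont (prim_cont hL.continuous)
  have h2 : Continuous (hh κ) := prim_cont (prim_cont (div_cont hκ))
  unfold fI
  fun_prop

lemma Kt_cont (s : ℝ) : Continuous (fun p : ℝ × ℝ => Kt s p.1 p.2) := by
  unfold Kt
  fun_prop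

/-- the inequality for the kernel at `s = 1` -/
lemma one (h : S_QWB) (hF : S_FKB) (hT : S_TRI) : QCB (fun F => Kt 1 ‖F.1‖ ‖F.2‖) := by
  intro F0 N c
  have hg : Continuous fun x : V => F0 + gd (box N) c x :=
    continuous_const.add (gd_cont (box N) c)
  have hn : Continuous (fun x : V =>
      ((‖(F0 + gd (box N) c x).1‖, ‖(F0 + gd (box N) c x).2‖) : ℝ × ℝ)) :=
    hg.fst.norm.prodMk hg.snd.norm
  have hK : IntegrableOn (fun x : V => Kt 1 ‖(F0 + gd (box N) c x).1‖ ‖(F0 + gd (box N) c x).2‖)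
      (Icc (0 : V) 1) := ((Kt_cont 1).comp hn).continuousOn.integrableOn_compact isCompact_Icc
  have hCc : Continuous (fun p : ℝ × ℝ => Cc p.1 p.2) := by unfold Cc; fun_prop
  have hC : IntegrableOn (fun x : V => Cc ‖(F0 + gd (box N) c x).1‖ ‖(F0 + gd (box N) c x).2‖)
      (Icc (0 : V) 1) := (hCc.comp hn).continuousOn.integrableOn_compact isCompact_Icc
  show Kt 1 ‖F0.1‖ ‖F0.2‖ ≤
    ∫ x in Icc (0 : V) 1, Kt 1 ‖(F0 + gd (box N) c x).1‖ ‖(F0 + gd (box N) c x).2‖
  set J := ∫ x in Icc (0 : V) 1, Kt 1 ‖(F0 + gd (box N) c x).1‖ ‖(F0 + gd (box N) c x).2‖ with hJ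
  set C := ∫ x in Icc (0 : V) 1, Cc ‖(F0 + gd (box N) c x).1‖ ‖(F0 + gd (box N) c x).2‖ with hCd
  have step : ∀ n : ℕ, 2 ≤ n →
      Kt 1 ‖F0.1‖ ‖F0.2‖ ≤ J + (C + Cc ‖F0.1‖ ‖F0.2‖) * (1 / n) := by
    intro n h2
    have hbl := (hT n h2).1
    have h0 := h (tri n) hbl F0 N c
    simp only at h0
    have h1 : ∫ x in Icc (0 : V) 1,
          fI (tri n) ‖(F0 + gd (box N) c x).1‖ ‖(F0 + gd (box N) c x).2‖
        ≤ ∫ x in Icc (0 : V) 1,
          (Kt 1 ‖(F0 + gd (box N) c x).1‖ ‖(F0 + gd (box N) c x).2‖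
            + Cc ‖(F0 + gd (box N) c x).1‖ ‖(F0 + gd (box N) c x).2‖ * (1 / n)) := by
      apply setIntegral_mono_on
      · exact ((fI_cont hbl.bump).comp hn).continuousOn.integrableOn_compact isCompact_Icc
      · exact hK.add (hC.mul_const _)
      · exact measurableSet_Icc
      · intro x _
        have := (abs_le.1 (fI_near hF hT n h2 (norm_nonneg (F0 + gd (box N) c x).1)
          (norm_nonneg (F0 + gd (box N) c x).2))).2
        linarith
    rw [integral_add hK (hC.mul_const _), integral_mul_const] at h1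
    have h3 := (abs_le.1 (fI_near hF hT n h2 (norm_nonneg F0.1) (norm_nonneg F0.2))).1
    rw [add_mul]
    linarith
  have lim : Tendsto (fun n : ℕ => J + (C + Cc ‖F0.1‖ ‖F0.2‖) * (1 / (n : ℝ))) atTop
      (𝓝 (J + (C + Cc ‖F0.1‖ ‖F0.2‖) * 0)) :=
    tendsto_const_nhds.add (tendsto_const_nhds.mul tendsto_one_div_atTop_nhds_zero_nat)
  have := ge_of_tendsto lim (eventually_atTop.2 ⟨2, fun n hn => step n hn⟩)
  simpa using this

lemma Kt_scale {s : ℝ} (hs : 0 < s) (x y : ℝ) : Kt s x y = s * Kt 1 (x / s) (y / s) := by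
  unfold Kt
  have h1 : max (x + y - s) 0 = s * max (x / s + y / s - 1) 0 := by
    rw [mul_max_of_nonneg _ _ hs.le, mul_zero]; congr 1; field_simp
  rw [h1]
  field_simp

theorem main (hQ : S_QWB) (hF : S_FKB) (hT : S_TRI) : S_QKB := by
  intro s hs F0 N c
  have h1 := one hQ hF hT (F0.1 / s, F0.2 / s) N (fun k => c k / s)
  have hadd : ∀ x : V, ((F0.1 / s, F0.2 / s) : ℂ × ℂ) + gd (box N) (fun k => c k / s) x =
      ((F0 + gd (box N) c x).1 / s, (F0 + gd (box N) c x).2 / s) := by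
    intro x
    rw [gd_scale]
    refine Prod.ext ?_ ?_ <;> simp [add_div]
  simp only [hadd, norm_div, Complex.norm_real, Real.norm_of_nonneg hs.le] at h1
  have h2 : ∀ x : V, Kt s ‖(F0 + gd (box N) c x).1‖ ‖(F0 + gd (box N) c x).2‖
      = s * Kt 1 (‖(F0 + gd (box N) c x).1‖ / s) (‖(F0 + gd (box N) c x).2‖ / s) :=
    fun x => Kt_scale hs _ _
  show Kt s ‖F0.1‖ ‖F0.2‖ ≤
    ∫ x in Icc (0 : V) 1, Kt s ‖(F0 + gd (box N) c x).1‖ ‖(F0 + gd (box N) c x).2‖
  simp only [h2, integral_const_mul]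
  rw [Kt_scale hs]
  exact mul_le_mul_of_nonneg_left h1 hs.le

end Pool.Agent.W991.BQ.Qkb
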